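import Pool.Agent.Y105.RS.Stm

/-! # Project RS: comparison of the Dirichlet forms on the torus -/

set_option autoImplicit false

open Finset Equiv

namespace Pool.Agent.Y952.RS

open Pool.Agent.Y105.RS

section General

/-- Euclidean norm -/
noncomputable def nm {ι : Type} [Fintype ι] (g : ι → ℝ) : ℝ := Real.sqrt (∑ i, g i ^ 2)

theorem nm_add {ι : Type} [Fintype ι] (g h : ι → ℝ) : nm (fun i => g i + h i) ≤ nm g + nm h := by
  have h1 := norm_add_le (WithLp.toLp 2 g : EuclideanSpace ℝ ι) (WithLp.toLp 2 h)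
  simp only [EuclideanSpace.norm_eq, Real.norm_eq_abs, sq_abs] at h1
  exact h1

theorem sum_comp_perm {V : Type} [Fintype V] [DecidableEq V] {m : ℕ} (σ : Perm V)
    (g : (V → Fin m) → ℝ) : ∑ ξ : V → Fin m, g (ξ ∘ σ) = ∑ ξ : V → Fin m, g ξ := by
  have := (Equiv.arrowCongr σ.symm (Equiv.refl (Fin m))).sum_comp g
  simpa [Equiv.arrowCongr] using this

end General

section Torus

variable {V : Type} [Fintype V] [DecidableEq V] [AddCommGroup V] {m : ℕ} (f : (V → Fin m) → ℝ)

/-- the sum over all translates -/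
noncomputable def SS (v : V) : ℝ :=
  ∑ y : V, ∑ ξ : V → Fin m, (f ξ - f (ξ ∘ swap y (y + v))) ^ 2

theorem SS_nonneg (v : V) : 0 ≤ SS f v :=
  sum_nonneg fun _ _ => sum_nonneg fun _ _ => sq_nonneg _

theorem SS_zero : SS f 0 = 0 := by
  simp [SS]

noncomputable def MM (v : V) : ℝ := Real.sqrt (SS f v)

theorem MM_nonneg (v : V) : 0 ≤ MM f v := Real.sqrt_nonneg _

theorem MM_sq (v : V) : MM f v ^ 2 = SS f v := Real.sq_sqrt (SS_nonneg f v)

theorem MM_zero : MM f 0 = 0 := by simp [MM, SS_zero]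

theorem MM_add (u w : V) : MM f (u + w) ≤ 2 * MM f u + MM f w := by
  by_cases h1 : u + w = 0
  · rw [h1, MM_zero]
    have := MM_nonneg f u
    have := MM_nonneg f w
    positivity
  by_cases h2 : w = 0
  · rw [h2, add_zero, MM_zero]
    have := MM_nonneg f u
    linarith
  -- the three parts
  set T1 : V × (V → Fin m) → ℝ := fun i => f i.2 - f (i.2 ∘ swap i.1 (i.1 + u)) with hT1
  set T2 : V × (V → Fin m) → ℝ := fun i => f (i.2 ∘ swap i.1 (i.1 + u)) -
    f ((i.2 ∘ swap i.1 (i.1 + u)) ∘ swap (i.1 + u) (i.1 + u + w)) with hT2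
  set T3 : V × (V → Fin m) → ℝ := fun i =>
    f ((i.2 ∘ swap i.1 (i.1 + u)) ∘ swap (i.1 + u) (i.1 + u + w)) -
    f (((i.2 ∘ swap i.1 (i.1 + u)) ∘ swap (i.1 + u) (i.1 + u + w)) ∘ swap i.1 (i.1 + u)) with hT3
  have e1 : nm T1 = MM f u := by
    rw [nm, MM, SS, Fintype.sum_prod_type]
  have e2 : nm T2 = MM f w := by
    rw [nm, MM, SS, Fintype.sum_prod_type]
    congr 1
    rw [← Equiv.sum_comp (Equiv.addRight u)
      (fun y => ∑ ξ : V → Fin m, (f ξ - f (ξ ∘ swap y (y + w))) ^ 2)]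
    refine sum_congr rfl fun y _ => ?_
    exact sum_comp_perm (swap y (y + u))
      (fun ξ => (f ξ - f (ξ ∘ swap (y + u) (y + u + w))) ^ 2)
  have e3 : nm T3 = MM f u := by
    rw [nm, MM, SS, Fintype.sum_prod_type]
    congr 1
    refine sum_congr rfl fun y _ => ?_
    exact sum_comp_perm (swap y (y + u) * swap (y + u) (y + u + w))
      (fun ξ => (f ξ - f (ξ ∘ swap y (y + u))) ^ 2)
  have e4 : MM f (u + w) = nm (fun i => (T1 i + T2 i) + T3 i) := by
    rw [nm, MM, SS, Fintype.sum_prod_type]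
    congr 1
    refine sum_congr rfl fun y _ => sum_congr rfl fun ξ _ => ?_
    have hs : swap (y + u) y * swap (y + u + w) (y + u) * swap (y + u) y = swap y (y + u + w) := by
      refine swap_mul_swap_mul_swap ?_ ?_
      · intro h
        exact h2 (by simpa using h)
      · intro h
        exact h1 (by simpa [add_assoc] using h)
    have : (((ξ ∘ swap y (y + u)) ∘ swap (y + u) (y + u + w)) ∘ swap y (y + u)) =
        ξ ∘ swap y (y + (u + w)) := by
      rw [← add_assoc, ← hs]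
      funext x
      simp only [Function.comp, Perm.mul_apply]
      rw [swap_comm (y + u) y, swap_comm (y + u + w) (y + u)]
    simp only [hT1, hT2, hT3]
    rw [this]
    congr 1
    ring
  rw [e4]
  have h5 := nm_add (fun i => T1 i + T2 i) T3
  have h6 := nm_add T1 T2
  rw [e1, e2] at h6
  rw [e3] at h5
  linarith

theorem MM_smul_add (k : ℕ) (e w : V) : MM f (k • e + w) ≤ 2 * k * MM f e + MM f w := by
  induction k with
  | zero => simp
  | succ k ih =>
    have : (k + 1) • e + w = e + (k • e + w) := by rw [succ_nsmul]; abel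
    rw [this]
    refine (MM_add f e _).trans ?_
    push_cast
    linarith

theorem MM_sum {ι : Type} [DecidableEq ι] (T : Finset ι) (k : ι → ℕ) (e : ι → V) :
    MM f (∑ i ∈ T, k i • e i) ≤ 2 * ∑ i ∈ T, k i * MM f (e i) := by
  induction T using Finset.induction_on with
  | empty => simp [MM_zero]
  | insert a T ha ih =>
    rw [sum_insert ha, sum_insert ha]
    refine (MM_smul_add f _ _ _).trans ?_
    linarith

theorem SS_sum {d s : ℕ} (k : Fin d → ℕ) (hk : ∀ i, k i ≤ s) (e : Fin d → V) :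
    SS f (∑ i, k i • e i) ≤ 4 * d * s ^ 2 * ∑ i, SS f (e i) := by
  rw [← MM_sq]
  have h1 := MM_sum f univ k e
  have h2 := MM_nonneg f (∑ i, k i • e i)
  have h3 : (∑ i, (k i : ℝ) * MM f (e i)) ^ 2 ≤ (∑ i, (k i : ℝ) ^ 2) * ∑ i, MM f (e i) ^ 2 :=
    sum_mul_sq_le_sq_mul_sq univ _ _
  have h4 : (∑ i, (k i : ℝ) ^ 2) ≤ d * s ^ 2 := by
    calc (∑ i, (k i : ℝ) ^ 2) ≤ ∑ _i : Fin d, (s : ℝ) ^ 2 := by
          refine sum_le_sum fun i _ => ?_
          have : (k i : ℝ) ≤ s := by exact_mod_cast hk i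
          gcongr
      _ = d * s ^ 2 := by simp
  have h5 : ∑ i, MM f (e i) ^ 2 = ∑ i, SS f (e i) := sum_congr rfl fun i _ => MM_sq f _
  have h6 : 0 ≤ ∑ i, SS f (e i) := sum_nonneg fun i _ => SS_nonneg f _
  calc MM f (∑ i, k i • e i) ^ 2 ≤ (2 * ∑ i, (k i : ℝ) * MM f (e i)) ^ 2 := by
        exact pow_le_pow_left₀ h2 h1 2
    _ = 4 * (∑ i, (k i : ℝ) * MM f (e i)) ^ 2 := by ring
    _ ≤ 4 * ((∑ i, (k i : ℝ) ^ 2) * ∑ i, MM f (e i) ^ 2) := by linarith
    _ = 4 * ((∑ i, (k i : ℝ) ^ 2) * ∑ i, SS f (e i)) := by rw [h5]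
    _ ≤ 4 * ((d * s ^ 2) * ∑ i, SS f (e i)) := by gcongr
    _ = _ := by ring

end Torus

section Nn

variable {d L s : ℕ} [NeZero L]

abbrev Tor (d L : ℕ) : Type := Fin d → ZMod L

theorem nnR_eq (x y : Tor d L) : nnR d L x y =
    (∑ i : Fin d, if y = x + Pi.single i 1 then (1 : ℝ) else 0) +
      ∑ i : Fin d, if x = y + Pi.single i 1 then (1 : ℝ) else 0 := by
  simp [nnR]

theorem sum_nnR (g : Tor d L → ℝ) (x : Tor d L) :
    ∑ y, nnR d L x y * g y = (∑ i, g (x + Pi.single i 1)) + ∑ i, g (x - Pi.single i 1) := by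
  simp only [nnR_eq, add_mul, sum_mul, sum_add_distrib]
  congr 1
  · rw [sum_comm]
    refine sum_congr rfl fun i _ => ?_
    simp
  · rw [sum_comm]
    refine sum_congr rfl fun i _ => ?_
    have : ∀ y : Tor d L, (x = y + Pi.single i 1) ↔ y = x - Pi.single i 1 := by
      intro y
      constructor
      · intro h; rw [h]; simp
      · intro h; rw [h]; simp
    simp [this]

theorem card_tor : (Fintype.card (Tor d L) : ℝ) = (L : ℝ) ^ d := by
  simp [Tor, ZMod.card]

theorem wt (hd : 1 ≤ d) (hL : 2 ≤ L) : Wt (nnp d L) := by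
  have hd' : (0 : ℝ) < d := by exact_mod_cast hd
  have hL' : (0 : ℝ) < L := by exact_mod_cast (by omega : 0 < L)
  refine ⟨fun x y => ?_, fun x y => ?_, fun x => ?_, fun x => ?_⟩
  · unfold nnp nnR
    positivity
  · unfold nnp nnR
    rw [add_comm]
  · have hone : (1 : ZMod L) ≠ 0 := by
      have : Fact (1 < L) := ⟨hL⟩
      exact one_ne_zero
    have h0 : ∀ i : Fin d, ¬ (x = x + Pi.single i (1 : ZMod L)) := by
      intro i h
      have h1 : (Pi.single i (1 : ZMod L) : Tor d L) = 0 := by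
        have := h.symm
        simpa using this
      have h2 := congrFun h1 i
      simp at h2
      exact hone h2
    unfold nnp nnR
    have : (univ.filter fun i : Fin d => x = x + Pi.single i (1 : ZMod L)) = ∅ := by
      rw [filter_eq_empty_iff]
      intro i _
      exact h0 i
    rw [this]
    simp
  · have h := sum_nnR (d := d) (L := L) (fun _ => 1) x
    simp only [mul_one, sum_const, card_univ, Fintype.card_fin, nsmul_eq_mul] at h
    have : ∑ y, nnp d L x y = (∑ y, nnR d L x y) / (2 * d * (L : ℝ) ^ d) := by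
      rw [sum_div]; rfl
    rw [this, h, card_tor]
    field_simp
    ring

/-- the shift -/
def sh (L : ℕ) {d s : ℕ} (v : Fin d → Fin s) : Fin d → ZMod L := fun i => ((v i : ℕ) : ZMod L)

theorem sh_inj (hs : s ≤ L) : Function.Injective (sh L (d := d) (s := s)) := by
  intro v w h
  funext i
  have h1 := congrFun h i
  simp only [sh] at h1
  have h2 := congrArg ZMod.val h1
  rw [ZMod.val_natCast_of_lt (lt_of_lt_of_le (v i).2 hs),
    ZMod.val_natCast_of_lt (lt_of_lt_of_le (w i).2 hs)] at h2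
  exact Fin.ext h2

theorem sum_bx (g : Tor d L → ℝ) (y : Tor d L) :
    ∑ z, bx d L s y z * g z = (∑ v : Fin d → Fin s, g (y + sh L v)) / (s : ℝ) ^ d := by
  have h1 : ∀ z, bx d L s y z = (∑ v : Fin d → Fin s, if z = y + sh L v then (1 : ℝ) else 0) /
      (s : ℝ) ^ d := by
    intro z
    simp only [bx, sh]
    congr 1
    rw [card_filter]
    push_cast
    rfl
  simp only [h1, div_mul_eq_mul_div, sum_mul, ← sum_div]
  congr 1
  rw [sum_comm]
  refine sum_congr rfl fun v _ => ?_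
  simp

theorem ker (hs : 1 ≤ s) (hsL : s ≤ L) : Ker (bx d L s) (1 / (s : ℝ) ^ d) := by
  have hs' : (0 : ℝ) < s := by exact_mod_cast hs
  refine ⟨fun y z => ?_, fun y z => ?_, fun y => ?_⟩
  · unfold bx
    positivity
  · unfold bx
    have : (univ.filter fun v : Fin d → Fin s => z = y + fun i => ((v i : ℕ) : ZMod L)).card ≤ 1 := by
      rw [card_le_one]
      intro a ha b hb
      simp only [mem_filter, mem_univ, true_and] at ha hb
      refine sh_inj (L := L) hsL ?_
      have h := ha.symm.trans hb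
      exact add_left_cancel h
    have h' : ((univ.filter fun v : Fin d → Fin s =>
        z = y + fun i => ((v i : ℕ) : ZMod L)).card : ℝ) ≤ 1 := by exact_mod_cast this
    gcongr
  · have h := sum_bx (d := d) (L := L) (s := s) (fun _ => 1) y
    simp only [mul_one, sum_const, card_univ, Fintype.card_fun, Fintype.card_fin,
      nsmul_eq_mul] at h
    rw [h]
    push_cast
    field_simp

theorem full (y z : Tor d L) : bx d L L y z = 1 / (Fintype.card (Fin d → ZMod L) : ℝ) := by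
  have : (univ.filter fun v : Fin d → Fin L => z = y + fun i => ((v i : ℕ) : ZMod L)).card = 1 := by
    rw [card_eq_one]
    refine ⟨fun i => ⟨(z i - y i).val, ZMod.val_lt _⟩, ?_⟩
    ext v
    simp only [mem_filter, mem_univ, true_and, mem_singleton]
    constructor
    · intro h
      funext i
      refine Fin.ext ?_
      rw [h]
      simp [ZMod.val_natCast_of_lt (v i).2]
    · intro h
      rw [h]
      funext i
      simp
  have hc : (Fintype.card (Fin d → ZMod L) : ℝ) = (L : ℝ) ^ d := card_tor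
  unfold bx
  rw [this, hc]
  simp

theorem sh_eq (v : Fin d → Fin s) :
    sh L v = ∑ i, (v i : ℕ) • (Pi.single i (1 : ZMod L) : Tor d L) := by
  funext j
  simp [sh, Finset.sum_apply, Pi.single_apply]

theorem cmpT (hd : 1 ≤ d) (hL : 2 ≤ L) (hs : 1 ≤ s) :
    Cmp (nnp d L) (bx d L s) (4 * (d : ℝ) ^ 2 * (s : ℝ) ^ 2) := by
  intro m f
  have hd' : (0 : ℝ) < d := by exact_mod_cast hd
  have hL' : (0 : ℝ) < L := by exact_mod_cast (by omega : 0 < L)
  have hs' : (0 : ℝ) < s := by exact_mod_cast hs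
  set E : ℝ := ∑ i : Fin d, SS f (Pi.single i (1 : ZMod L) : Tor d L) with hE
  have hE0 : 0 ≤ E := sum_nonneg fun i _ => SS_nonneg f _
  -- right-hand side
  have hR : ∑ x, ∑ y, nnp d L x y * ∑ ξ : Tor d L → Fin m, (f ξ - f (ξ ∘ swap x y)) ^ 2 =
      2 * E / (2 * d * (L : ℝ) ^ d) := by
    have h1 : ∀ x : Tor d L, ∑ y, nnp d L x y * ∑ ξ : Tor d L → Fin m,
        (f ξ - f (ξ ∘ swap x y)) ^ 2 =
        ((∑ i, ∑ ξ : Tor d L → Fin m, (f ξ - f (ξ ∘ swap x (x + Pi.single i 1))) ^ 2) +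
          ∑ i, ∑ ξ : Tor d L → Fin m, (f ξ - f (ξ ∘ swap x (x - Pi.single i 1))) ^ 2) /
          (2 * d * (L : ℝ) ^ d) := by
      intro x
      rw [← sum_nnR (fun y => ∑ ξ : Tor d L → Fin m, (f ξ - f (ξ ∘ swap x y)) ^ 2) x, sum_div]
      refine sum_congr rfl fun y _ => ?_
      rw [nnp]
      ring
    simp only [h1]
    rw [← sum_div, sum_add_distrib]
    congr 1
    have h2 : ∑ x : Tor d L, ∑ i, ∑ ξ : Tor d L → Fin m,
        (f ξ - f (ξ ∘ swap x (x + Pi.single i 1))) ^ 2 = E := by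
      rw [sum_comm]; rfl
    have h3 : ∑ x : Tor d L, ∑ i, ∑ ξ : Tor d L → Fin m,
        (f ξ - f (ξ ∘ swap x (x - Pi.single i 1))) ^ 2 = E := by
      rw [sum_comm, hE]
      refine sum_congr rfl fun i _ => ?_
      refine (Equiv.sum_comp (Equiv.addRight (Pi.single i (1 : ZMod L) : Tor d L))
        (fun x : Tor d L => ∑ ξ : Tor d L → Fin m,
          (f ξ - f (ξ ∘ swap x (x - Pi.single i 1))) ^ 2)).symm.trans ?_
      refine sum_congr rfl fun y _ => ?_
      simp only [Equiv.coe_addRight, add_sub_cancel_right]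
      rw [swap_comm]
    rw [h2, h3]
    ring
  -- left-hand side
  have hLs : ∑ y, ∑ z, bx d L s y z * ∑ ξ : Tor d L → Fin m, (f ξ - f (ξ ∘ swap y z)) ^ 2 ≤
      4 * d * s ^ 2 * E := by
    have h1 : ∀ y : Tor d L, ∑ z, bx d L s y z * ∑ ξ : Tor d L → Fin m,
        (f ξ - f (ξ ∘ swap y z)) ^ 2 =
        (∑ v : Fin d → Fin s, ∑ ξ : Tor d L → Fin m,
          (f ξ - f (ξ ∘ swap y (y + sh L v))) ^ 2) / (s : ℝ) ^ d := fun y =>
      sum_bx (fun z => ∑ ξ : Tor d L → Fin m, (f ξ - f (ξ ∘ swap y z)) ^ 2) y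
    simp only [h1]
    rw [← sum_div, sum_comm, div_le_iff₀ (by positivity)]
    calc ∑ v : Fin d → Fin s, ∑ y : Tor d L, ∑ ξ : Tor d L → Fin m,
          (f ξ - f (ξ ∘ swap y (y + sh L v))) ^ 2
        = ∑ v : Fin d → Fin s, SS f (sh L v) := rfl
      _ ≤ ∑ _v : Fin d → Fin s, 4 * d * s ^ 2 * E := by
          refine sum_le_sum fun v _ => ?_
          rw [sh_eq]
          exact SS_sum f (fun i => (v i : ℕ)) (fun i => (v i).2.le) _
      _ = 4 * d * s ^ 2 * E * s ^ d := by
          simp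
          ring
  have hc : (Fintype.card (Fin d → ZMod L) : ℝ) = (L : ℝ) ^ d := card_tor
  rw [hR, hc, div_le_iff₀ (by positivity)]
  calc _ ≤ 4 * d * s ^ 2 * E := hLs
    _ = _ := by
      field_simp

end Nn

theorem cmp : S_CMP := by
  intro d L s _ hd hL hs hsL
  exact ⟨wt hd hL, ker hs hsL, cmpT hd hL hs, fun y z => full y z⟩

end Pool.Agent.Y952.RS
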